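import Pool.Agent.H24.RCN.Targets

/-!
# Row NT1: the difference of the Frobenius conjugates
-/

set_option autoImplicit false

open NumberField Pool.Agent.H24.RCN

namespace Pool.Agent.H73.RCN

/-- the norm of the image of an ideal under an automorphism -/
theorem absNorm_map {R : Type} [CommRing R] [IsDedekindDomain R] [Module.Free ℤ R]
    (Φ : R ≃+* R) (I : Ideal R) :
    Ideal.absNorm (Ideal.map (Φ : R →+* R) I) = Ideal.absNorm I := by
  rw [Ideal.absNorm_apply, Ideal.absNorm_apply, Submodule.cardQuot_apply,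
    Submodule.cardQuot_apply]
  exact (Nat.card_congr (Ideal.quotientEquiv I (Ideal.map (Φ : R →+* R) I) Φ rfl).toEquiv).symm

theorem pow_dvd_of_eq {R : Type} [CommRing R] [IsDedekindDomain R] {κ : ℕ} (hκ : κ ≠ 0)
    {I : Ideal R} {A P Pb : R} (hI : Ideal.span {Pb} = I ^ κ)
    (hA : A ^ κ = P * Pb ^ (κ - 1)) : I ^ (κ - 1) ∣ Ideal.span {A} := by
  have h1 : (I ^ (κ - 1)) ^ κ ∣ (Ideal.span {A}) ^ κ := by
    rw [Ideal.span_singleton_pow, hA, ← Ideal.span_singleton_mul_span_singleton,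
      ← Ideal.span_singleton_pow, hI, ← pow_mul, ← pow_mul, mul_comm κ (κ - 1)]
    exact dvd_mul_left _ _
  exact (UniqueFactorizationMonoid.pow_dvd_pow_iff_dvd hκ).1 h1

theorem pf_NT1 (hfrb : T_FRB) (hfrq : T_FRQ) (hcop : T_COP) (hpow : T_POW) (hnor : T_NOR) :
    T_NT1 := by
  intro F _ _ r e d p k κ _ ζ hdat hζ A hA
  have hκ1 : 1 ≤ κ := hdat.hκ.one_lt.le
  have hκ0 : κ ≠ 0 := hdat.hκ.ne_zero
  have hd5 := hdat.hd5
  set q : 𝓞 F := ((r ^ e : ℕ) : 𝓞 F) with hq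
  set P : 𝓞 F := 1 - ζ * q with hP
  set Pb : 𝓞 F := 1 - ζ ^ (d - 1) * q with hPb
  -- `r` does not divide `d κ`
  have hrn : ¬ r ∣ d * κ := by
    intro h
    rcases (hdat.hr.dvd_mul).1 h with h | h
    · exact hdat.hrd ((Nat.prime_dvd_prime_iff_eq hdat.hr hdat.hd).1 h)
    · have h1 := (Nat.prime_dvd_prime_iff_eq hdat.hr hdat.hκ).1 h
      have h2 := hdat.hκr
      rw [h1] at h2
      have h3 := Nat.le_of_dvd (by have := hdat.hκ.one_lt; omega) h2
      omega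
  obtain ⟨Φ, hΦ1, hΦ2⟩ := hfrb F (d * κ) r
    (Nat.mul_pos hdat.hd.pos hdat.hκ.pos) hdat.hr hrn
  have hΦq : Φ q = q := by rw [hq, map_natCast]
  have hζd : ζ ^ d = 1 := hζ.pow_eq_one
  have hΦζ : Φ ζ = ζ ^ r := hΦ1 ζ (by rw [pow_mul, hζd, one_pow])
  have hΦP : Φ P = 1 - ζ ^ r * q := by rw [hP, map_sub, map_mul, map_one, hΦζ, hΦq]
  have hΦPb : Φ Pb = 1 - (ζ ^ r) ^ (d - 1) * q := by
    rw [hPb, map_sub, map_mul, map_one, map_pow, hΦζ, hΦq]
  -- (1)
  have hAq : q ∣ A ^ κ - 1 := by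
    rw [hA]
    have h1 : q ∣ P - 1 := ⟨-ζ, by rw [hP]; ring⟩
    have h2 : q ∣ Pb - 1 := ⟨-ζ ^ (d - 1), by rw [hPb]; ring⟩
    have h3 : q ∣ Pb ^ (κ - 1) - 1 := by
      have h4 := sub_dvd_pow_sub_pow Pb 1 (κ - 1)
      rw [one_pow] at h4
      exact h2.trans h4
    have h5 : P * Pb ^ (κ - 1) - 1 = (P - 1) * Pb ^ (κ - 1) + (Pb ^ (κ - 1) - 1) := by ring
    rw [h5]
    exact dvd_add (h1.mul_right _) h3
  have hΦAq : q ∣ (Φ A) ^ κ - 1 := by
    obtain ⟨y, hy⟩ := hAq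
    refine ⟨Φ y, ?_⟩
    have h1 := congrArg Φ hy
    rw [map_sub, map_pow, map_one, map_mul, hΦq] at h1
    exact h1
  have hdiff : q ∣ Φ A - A := by
    refine hfrq (𝓞 F) r e κ A (Φ A) hdat.hr hdat.he hdat.hκ hdat.hκr hAq hΦAq ?_
    obtain ⟨y, hy⟩ := hΦ2 A
    exact ⟨y, by rw [hy]; ring⟩
  -- (2)
  set D : 𝓞 F := Φ A * Pb - A * Φ Pb with hD
  have hDq : q ∣ D := by
    have h1 : D = (Φ A - A) * Pb + A * (Pb - Φ Pb) := by rw [hD]; ring
    rw [h1]
    refine dvd_add (hdiff.mul_right _) (Dvd.dvd.mul_left ?_ _)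
    exact ⟨(ζ ^ r) ^ (d - 1) - ζ ^ (d - 1), by rw [hΦPb, hPb]; ring⟩
  -- (3)
  obtain ⟨I, hI⟩ := hpow (𝓞 F) r e d p k κ ζ hdat hζ (d - 1) (by omega) (by omega)
  change Ideal.span {Pb} = I ^ κ at hI
  have hIA : A ∈ I ^ (κ - 1) := by
    have h1 := pow_dvd_of_eq hκ0 hI hA
    rw [Ideal.dvd_span_singleton] at h1
    exact h1
  have hPbI : Pb ∈ I ^ (κ - 1) := by
    have h1 : I ^ (κ - 1) ∣ Ideal.span {Pb} := by
      rw [hI]
      exact pow_dvd_pow _ (Nat.sub_le _ _)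
    rw [Ideal.dvd_span_singleton] at h1
    exact h1
  have hPbI1 : Pb ∈ I := by
    have h1 : I ∣ Ideal.span {Pb} := by
      rw [hI]
      exact dvd_pow_self _ hκ0
    rw [Ideal.dvd_span_singleton] at h1
    exact h1
  set I' : Ideal (𝓞 F) := Ideal.map (Φ : 𝓞 F →+* 𝓞 F) I with hI'
  have hmem : ∀ x ∈ I ^ (κ - 1), Φ x ∈ I' ^ (κ - 1) := by
    intro x hx
    rw [hI', ← Ideal.map_pow]
    exact Ideal.mem_map_of_mem (Φ : 𝓞 F →+* 𝓞 F) hx
  have hDI : D ∈ I ^ (κ - 1) * I' ^ (κ - 1) := by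
    rw [hD]
    apply Ideal.sub_mem
    · rw [mul_comm (Φ A) Pb]
      exact Ideal.mul_mem_mul hPbI (hmem A hIA)
    · exact Ideal.mul_mem_mul hIA (hmem Pb hPbI)
  -- (4)
  have hc1 : IsCoprime (Ideal.span {q}) I := by
    rw [Ideal.isCoprime_iff_exists]
    refine ⟨ζ ^ (d - 1) * q, ?_, Pb, hPbI1, ?_⟩
    · rw [Ideal.mem_span_singleton]
      exact dvd_mul_left _ _
    · rw [hPb]
      ring
  have hc2 : IsCoprime (Ideal.span {q}) I' := by
    rw [Ideal.isCoprime_iff_exists]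
    refine ⟨(ζ ^ r) ^ (d - 1) * q, ?_, Φ Pb, ?_, ?_⟩
    · rw [Ideal.mem_span_singleton]
      exact dvd_mul_left _ _
    · exact Ideal.mem_map_of_mem (Φ : 𝓞 F →+* 𝓞 F) hPbI1
    · rw [hΦPb]
      ring
  refine ⟨Φ, I, I', absNorm_map Φ I, hI.symm, ?_, ?_⟩
  · -- (5)
    intro hD0
    have hD1 : Φ A * Pb = A * Φ Pb := sub_eq_zero.1 hD0
    have hpos : 1 < p ^ (k * (κ - 1)) := by
      apply Nat.one_lt_pow _ hdat.hp.one_lt
      have h1 := hdat.hk
      have h2 := hdat.hκ.one_lt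
      exact Nat.mul_ne_zero (by omega) (by omega)
    have hPb0 : Pb ≠ 0 := by
      intro h
      have h1 := hnor F r e d p k κ ζ hdat hζ (d - 1) (by omega) (by omega)
      change Ideal.absNorm (Ideal.span {Pb}) = _ at h1
      rw [h, Ideal.absNorm_eq_zero_iff.2 (Ideal.span_singleton_eq_bot.2 rfl)] at h1
      omega
    have hΦPb0 : Φ Pb ≠ 0 := fun h => hPb0 ((map_eq_zero_iff Φ Φ.injective).1 h)
    have h1 : Φ P * Pb = P * Φ Pb := by
      have h2 : (Φ A * Pb) ^ κ = (A * Φ Pb) ^ κ := by rw [hD1]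
      rw [mul_pow, mul_pow, ← map_pow, hA, map_mul, map_pow] at h2
      obtain ⟨m, rfl⟩ : ∃ m, κ = m + 1 := ⟨κ - 1, by omega⟩
      rw [Nat.add_sub_cancel] at h2
      have h3 : Φ P * Pb * (Φ Pb ^ m * Pb ^ m) = P * Φ Pb * (Φ Pb ^ m * Pb ^ m) := by
        linear_combination h2
      exact mul_right_cancel₀ (mul_ne_zero (pow_ne_zero _ hΦPb0) (pow_ne_zero _ hPb0)) h3
    have hc3 : IsCoprime P Pb := by
      have h2 := hcop (𝓞 F) r e d p k κ ζ hdat hζ 1 (d - 1) le_rfl (by omega) (by omega)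
        (by omega) (by omega)
      rw [pow_one] at h2
      exact h2
    have hc4 : IsCoprime P (Φ P) := by
      have hm0 : r % d ≠ 0 := by
        intro h
        have h2 := Nat.dvd_of_mod_eq_zero h
        exact hdat.hrd ((Nat.prime_dvd_prime_iff_eq hdat.hd hdat.hr).1 h2).symm
      have hm1 : 1 ≠ r % d := by
        intro h
        apply hdat.hd1
        have h2 : r % d = 1 % d := by rw [← h, Nat.mod_eq_of_lt (by omega)]
        exact (Nat.modEq_iff_dvd' hdat.hr.one_lt.le).1 h2.symm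
      have h2 := hcop (𝓞 F) r e d p k κ ζ hdat hζ 1 (r % d) le_rfl (by omega) (by omega)
        (Nat.mod_lt _ (by omega)) hm1
      rw [pow_one] at h2
      have h3 : ζ ^ (r % d) = ζ ^ r := by
        conv_rhs => rw [← Nat.mod_add_div r d, pow_add, pow_mul, hζd, one_pow, mul_one]
      rw [h3] at h2
      rw [hΦP]
      exact h2
    have hu : IsUnit P := (hc4.mul_right hc3).isUnit_of_dvd ⟨Φ Pb, h1⟩
    have h2 := hnor F r e d p k κ ζ hdat hζ 1 le_rfl (by omega)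
    rw [pow_one] at h2
    change Ideal.absNorm (Ideal.span {P}) = _ at h2
    rw [Ideal.span_singleton_eq_top.2 hu, Ideal.absNorm_top] at h2
    omega
  · apply IsCoprime.mul_dvd
    · exact IsCoprime.mul_right hc1.pow_right hc2.pow_right
    · rw [Ideal.dvd_span_singleton, Ideal.mem_span_singleton]
      exact hDq
    · rw [Ideal.dvd_span_singleton]
      exact hDI

end Pool.Agent.H73.RCN
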